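import Pool.Agent.Work.MP_7cb3ca_co.P3.Cyc
import Pool.Agent.Work.MP_7cb3ca_co.P3.Cert

namespace Pool.Agent.Results.MP_7cb3ca_co.ThreeBesideOne

/-- Let `n ≥ 3`, let every vertex `v` of the cycle `C_n` have a list `L v`, and let `a` be a colour
in the list of a vertex `v₀` such that every other vertex has at least three colours different from
`a` in its list. Then there is a colouring from the lists such that no path on `2 m` vertices
(`m ≥ 1`) has the colour of its `i`-th vertex equal to that of its `(i + m)`-th vertex for all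
`i < m`. -/
theorem result :
    ∀ n : ℕ, 3 ≤ n → ∀ (L : Fin n → Set ℕ) (v₀ : Fin n) (a : ℕ), a ∈ L v₀ →
      (∀ v, v ≠ v₀ → 3 ≤ (L v \ {a}).encard) →
      ∃ c : Fin n → ℕ, (∀ v, c v ∈ L v) ∧
        ∀ (u v : Fin n) (p : (SimpleGraph.cycleGraph n).Walk u v) (m : ℕ), p.IsPath → 1 ≤ m →
          p.length + 1 = 2 * m → ¬ ∀ i < m, c (p.getVert i) = c (p.getVert (i + m)) :=
  Pool.Agent.Work.MP_7cb3ca_co.P3.cycle_colouring Pool.Agent.Work.MP_7cb3ca_co.P3.D.cert

end Pool.Agent.Results.MP_7cb3ca_co.ThreeBesideOne
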